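import Pool.Agent.H55.OrbA

namespace Pool.Agent.Results.MP_7279d0_gt.Orbits
open Pool.Agent.H55.Orb Cardinal

theorem result :
    #(Set.range (orbit : C(OmegaStar, OmegaStar) → Set C(OmegaStar, OmegaStar))) = 2 ^ 𝔠 :=
  main

end Pool.Agent.Results.MP_7279d0_gt.Orbits
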